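import Mathlib

/-!
For every finite `α ≥ 3` there is a `128`-SPR isometric embedding of `C[1, ω ^ α]` into itself.

`[1, ω ^ α]` is homeomorphic to `V α`, where `V 0` is a point and `V (n + 1)` is the one-point
compactification of `ℕ × V n`. The points of `V α` are finite sequences of length at most `α`; let
`u d` be truncation after `d` entries. With four blocks `0 = d₀ ≤ d₁ ≤ d₂ ≤ d₃ ≤ d₄ = α` of length at
most `b`, `2 b < α`, every evaluation is a telescoping sum of the last evaluation and the differences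
`Dⁱ_s f = f (u dᵢ₊₁ s) - f (u dᵢ s)`. The functionals of block `i` are parametrised by `V b`, so the
averages `(Dⁱ_s + Dʲ_t) / 4` by `V (2 b)`, and they fit into `V α` beside the evaluations.
-/

set_option autoImplicit false
set_option linter.unusedVariables false

namespace Pool.Agent.Results.MP_6ed805_an.UniformSPR

open Filter Topology

/-! ### The spaces `V n`: iterated one-point compactifications -/

/-- `V 0` is a point, `V (n + 1)` the one-point compactification of `ℕ × V n`. -/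
def V : ℕ → Type
  | 0 => Unit
  | n + 1 => OnePoint (ℕ × V n)

instance instTop : (n : ℕ) → TopologicalSpace (V n)
  | 0 => (inferInstance : TopologicalSpace Unit)
  | n + 1 =>
    let _ := instTop n
    (inferInstance : TopologicalSpace (OnePoint (ℕ × V n)))

instance instCompact : (n : ℕ) → CompactSpace (V n)
  | 0 => (inferInstance : CompactSpace Unit)
  | n + 1 => (inferInstance : CompactSpace (OnePoint (ℕ × V n)))

instance instT2 : (n : ℕ) → T2Space (V n)
  | 0 => (inferInstance : T2Space Unit)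
  | n + 1 =>
    let _ := instT2 n
    (inferInstance : T2Space (OnePoint (ℕ × V n)))

/-- the last point -/
def top : (n : ℕ) → V n
  | 0 => ()
  | n + 1 => (OnePoint.infty : OnePoint (ℕ × V n))

/-- the point `y` of the `k`-th copy of `V n` -/
def pt {n : ℕ} (k : ℕ) (y : V n) : V (n + 1) := (OnePoint.some (k, y) : OnePoint (ℕ × V n))

theorem cases_V {n : ℕ} (x : V (n + 1)) : x = top (n + 1) ∨ ∃ k y, x = pt k y := by
  by_cases h : x = top (n + 1)
  · exact Or.inl h
  · obtain ⟨⟨k, y⟩, hy⟩ := (OnePoint.ne_infty_iff_exists (X := ℕ × V n) (x := x)).1 h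
    exact Or.inr ⟨k, y, hy.symm⟩

/-- functions on `V (n + 1)` -/
def glue {n : ℕ} {Z : Type*} (φ : ℕ → V n → Z) (z : Z) : V (n + 1) → Z :=
  fun x => OnePoint.elim (x : OnePoint (ℕ × V n)) z (fun p => φ p.1 p.2)

@[simp] theorem glue_top {n : ℕ} {Z : Type*} (φ : ℕ → V n → Z) (z : Z) :
    glue φ z (top (n + 1)) = z := rfl

@[simp] theorem glue_pt {n : ℕ} {Z : Type*} (φ : ℕ → V n → Z) (z : Z) (k : ℕ) (y : V n) :
    glue φ z (pt k y) = φ k y := rfl

theorem glue_cont {n : ℕ} {Z : Type*} [TopologicalSpace Z] {φ : ℕ → V n → Z} {z : Z}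
    (h1 : ∀ k, Continuous (φ k)) (h2 : ∀ U ∈ 𝓝 z, ∃ N, ∀ k, N ≤ k → ∀ y, φ k y ∈ U) :
    Continuous (glue φ z) := by
  refine (OnePoint.continuous_iff (X := ℕ × V n) (glue φ z)).2 ⟨?_, ?_⟩
  · intro U hU
    obtain ⟨N, hN⟩ := h2 U hU
    have hc : IsCompact ((Set.Iio N) ×ˢ (Set.univ : Set (V n))) :=
      (Set.finite_Iio N).isCompact.prod isCompact_univ
    rw [Filter.mem_map]
    refine Filter.mem_of_superset (hc.compl_mem_coclosedCompact_of_isClosed hc.isClosed) ?_
    rintro ⟨k, y⟩ hk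
    have hk' : N ≤ k := by
      by_contra h
      exact hk ⟨not_le.1 h, Set.mem_univ _⟩
    exact hN k hk' y
  · exact continuous_prod_of_discrete_left.2 h1

theorem pt_cont {n : ℕ} (k : ℕ) : Continuous (pt (n := n) k) :=
  (OnePoint.continuous_coe (X := ℕ × V n)).comp (by fun_prop)

theorem eventually_pt {n : ℕ} {Z : Type*} [TopologicalSpace Z] {f : V (n + 1) → Z}
    (hf : Continuous f) {U : Set Z} (hU : U ∈ 𝓝 (f (top (n + 1)))) :
    ∃ N, ∀ k, N ≤ k → ∀ y, f (pt k y) ∈ U := by
  have h := (OnePoint.continuousAt_infty (X := ℕ × V n) (f := f)).1 hf.continuousAt U hU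
  obtain ⟨t, ht1, ht2, ht3⟩ := h
  have h1 : (Prod.fst '' t).Finite := (ht2.image continuous_fst).finite_of_discrete
  obtain ⟨N, hN⟩ := h1.bddAbove
  refine ⟨N + 1, fun k hk y => ?_⟩
  have : (k, y) ∈ tᶜ := by
    intro h
    have := hN ⟨(k, y), h, rfl⟩
    simp at this
    omega
  exact ht3 this

/-! ### Truncations -/

/-- truncate to depth `n` and regard as a point of `V n` -/
def emb : (m n : ℕ) → V m → V n
  | 0, n => fun _ => top n
  | _ + 1, 0 => fun _ => ()
  | m + 1, n + 1 => glue (fun k y => pt k (emb m n y)) (top (n + 1))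

theorem emb_top : ∀ m n : ℕ, emb m n (top m) = top n
  | 0, _ => rfl
  | _ + 1, 0 => rfl
  | _ + 1, _ + 1 => rfl

theorem pt_near_top {n : ℕ} {U : Set (V (n + 1))} (hU : U ∈ 𝓝 (top (n + 1))) :
    ∃ N, ∀ k, N ≤ k → ∀ y : V n, pt k y ∈ U :=
  eventually_pt continuous_id hU

theorem emb_cont : ∀ m n : ℕ, Continuous (emb m n)
  | 0, n => continuous_const
  | m + 1, 0 => continuous_const
  | m + 1, n + 1 => by
    apply glue_cont
    · intro k
      exact (pt_cont k).comp (emb_cont m n)
    · intro U hU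
      obtain ⟨N, hN⟩ := pt_near_top hU
      exact ⟨N, fun k hk y => hN k hk _⟩

theorem emb_surj : ∀ m n : ℕ, n ≤ m → Function.Surjective (emb m n)
  | 0, n, h => by
    obtain rfl : n = 0 := by omega
    intro y
    exact ⟨(), rfl⟩
  | m + 1, 0, _ => fun y => ⟨top _, rfl⟩
  | m + 1, n + 1, h => by
    intro x
    rcases cases_V x with rfl | ⟨k, y, rfl⟩
    · exact ⟨top _, rfl⟩
    · obtain ⟨y', hy'⟩ := emb_surj m n (by omega) y
      exact ⟨pt k y', by change pt k (emb m n y') = _; rw [hy']⟩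

/-- truncation at depth `d` -/
def u : (d n : ℕ) → V n → V n
  | 0, n => fun _ => top n
  | _ + 1, 0 => id
  | d + 1, n + 1 => glue (fun k y => pt k (u d n y)) (top (n + 1))

theorem u_cont : ∀ d n : ℕ, Continuous (u d n)
  | 0, n => continuous_const
  | d + 1, 0 => continuous_id
  | d + 1, n + 1 => by
    apply glue_cont
    · intro k
      exact (pt_cont k).comp (u_cont d n)
    · intro U hU
      obtain ⟨N, hN⟩ := pt_near_top hU
      exact ⟨N, fun k hk y => hN k hk _⟩

theorem u_self : ∀ d n : ℕ, n ≤ d → ∀ x, u d n x = x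
  | 0, n, h => by
    obtain rfl : n = 0 := by omega
    intro x; rfl
  | d + 1, 0, _ => fun x => rfl
  | d + 1, n + 1, h => by
    intro x
    rcases cases_V x with rfl | ⟨k, y, rfl⟩
    · rfl
    · change pt k (u d n y) = _
      rw [u_self d n (by omega)]

theorem u_u : ∀ d e n : ℕ, d ≤ e → ∀ x, u d n (u e n x) = u d n x
  | 0, e, n, _ => fun _ => rfl
  | d + 1, 0, n, h => by omega
  | d + 1, e + 1, 0, _ => fun _ => rfl
  | d + 1, e + 1, n + 1, h => by
    intro x
    rcases cases_V x with rfl | ⟨k, y, rfl⟩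
    · rfl
    · change pt k (u d n (u e n y)) = pt k (u d n y)
      rw [u_u d e n (by omega)]

/-- truncation agrees with embedding a truncation -/
theorem exists_emb : ∀ c n : ℕ, ∀ x : V n, ∃ y : V c, emb c n y = u c n x
  | 0, n => fun x => ⟨(), rfl⟩
  | c + 1, 0 => fun x => ⟨top _, rfl⟩
  | c + 1, n + 1 => by
    intro x
    rcases cases_V x with rfl | ⟨k, y, rfl⟩
    · exact ⟨top _, rfl⟩
    · obtain ⟨y', hy'⟩ := exists_emb c n y
      exact ⟨pt k y', by change pt k (emb c n y') = pt k (u c n y); rw [hy']⟩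

/-! ### Parametrisation of the points of a block -/

/-- points of depth between `d + 1` and `d + c + 1` -/
def S (c : ℕ) : (d n : ℕ) → ℕ → V c → V n
  | 0, n => fun m y => emb (c + 1) n (pt m y)
  | _ + 1, 0 => fun _ _ => ()
  | d + 1, n + 1 => fun m y => pt (Nat.unpair m).1 (S c d n (Nat.unpair m).2 y)

theorem S_cont (c : ℕ) : ∀ (d n m : ℕ), Continuous (S c d n m)
  | 0, n, m => (emb_cont _ _).comp (pt_cont m)
  | d + 1, 0, m => continuous_const
  | d + 1, n + 1, m => (pt_cont _).comp (S_cont c d n _)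

theorem S_surj (c : ℕ) : ∀ (d n : ℕ) (s : V n), u (d + c + 1) n s = u d n s ∨
    ∃ m y, S c d n m y = u (d + c + 1) n s
  | 0, 0, s => Or.inl rfl
  | 0, n + 1, s => by
    rcases cases_V s with rfl | ⟨k, y, rfl⟩
    · left
      rw [Nat.zero_add]; rfl
    · right
      obtain ⟨y', hy'⟩ := exists_emb c n y
      refine ⟨k, y', ?_⟩
      rw [Nat.zero_add]
      change pt k (emb c n y') = pt k (u c n y)
      rw [hy']
  | d + 1, 0, s => Or.inl rfl
  | d + 1, n + 1, s => by
    have e : d + 1 + c + 1 = (d + c + 1) + 1 := by omega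
    rw [e]
    rcases cases_V s with rfl | ⟨k, y, rfl⟩
    · exact Or.inl rfl
    · rcases S_surj c d n y with h | ⟨m, y', h⟩
      · left
        change pt k (u (d + c + 1) n y) = pt k (u d n y)
        rw [h]
      · right
        refine ⟨Nat.pair k m, y', ?_⟩
        change pt (Nat.unpair (Nat.pair k m)).1 (S c d n (Nat.unpair (Nat.pair k m)).2 y') =
          pt k (u (d + c + 1) n y)
        rw [Nat.unpair_pair]
        change pt k (S c d n m y') = _
        rw [h]

theorem S_small (c : ℕ) : ∀ (d n : ℕ) (f : V n → ℝ), Continuous f → ∀ ε > 0,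
    ∃ N, ∀ m, N ≤ m → ∀ y, |f (S c d n m y) - f (u d n (S c d n m y))| < ε
  | 0, n, f, hf, ε, hε => by
    have h1 : Continuous (f ∘ emb (c + 1) n) := hf.comp (emb_cont _ _)
    have h2 : {x : ℝ | |x - f (top n)| < ε} ∈ 𝓝 ((f ∘ emb (c + 1) n) (top (c + 1))) := by
      rw [Function.comp, emb_top]
      exact Metric.ball_mem_nhds (f (top n)) hε
    exact eventually_pt h1 h2
  | d + 1, 0, f, hf, ε, hε => ⟨0, fun m _ y => by
      change |f () - f ()| < ε
      rw [sub_self, abs_zero]; exact hε⟩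
  | d + 1, n + 1, f, hf, ε, hε => by
    have h2 : {x : ℝ | |x - f (top (n + 1))| < ε / 2} ∈ 𝓝 (f (top (n + 1))) :=
      Metric.ball_mem_nhds (f (top (n + 1))) (half_pos hε)
    obtain ⟨N1, hN1⟩ := eventually_pt hf h2
    have ih : ∀ k, ∃ N, ∀ m, N ≤ m → ∀ y,
        |f (pt k (S c d n m y)) - f (pt k (u d n (S c d n m y)))| < ε := fun k =>
      S_small c d n (fun y => f (pt k y)) (hf.comp (pt_cont k)) ε hε
    choose N hN using ih
    let M := (Finset.range N1).sup N
    refine ⟨(max N1 M + 1) ^ 2, fun m hm y => ?_⟩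
    change |f (pt (Nat.unpair m).1 (S c d n (Nat.unpair m).2 y)) -
      f (pt (Nat.unpair m).1 (u d n (S c d n (Nat.unpair m).2 y)))| < ε
    by_cases h1 : N1 ≤ (Nat.unpair m).1
    · have e1 := hN1 _ h1 (S c d n (Nat.unpair m).2 y)
      have e2 := hN1 _ h1 (u d n (S c d n (Nat.unpair m).2 y))
      rw [Set.mem_ofPred_eq, abs_lt] at e1 e2
      rw [abs_lt]
      constructor <;> linarith
    · apply hN
      have h3 : N (Nat.unpair m).1 ≤ M :=
        Finset.le_sup (f := N) (Finset.mem_range.2 (not_le.1 h1))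
      by_contra h4
      have h5 : m < (max N1 M + 1) ^ 2 := by
        have h6 := Nat.pair_lt_max_add_one_sq (Nat.unpair m).1 (Nat.unpair m).2
        rw [Nat.pair_unpair] at h6
        refine lt_of_lt_of_le h6 ?_
        gcongr
        · omega
        · omega
      omega

/-! ### Products -/

/-- shift of the copies -/
def shift {n : ℕ} (k : ℕ) : V (n + 1) → V (n + 1) := glue (fun m y => pt (m + k) y) (top (n + 1))

theorem shift_cont {n : ℕ} (k : ℕ) : Continuous (shift (n := n) k) := by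
  apply glue_cont
  · intro m; exact pt_cont _
  · intro U hU
    obtain ⟨N, hN⟩ := pt_near_top hU
    exact ⟨N, fun m hm y => hN _ (by omega) y⟩

theorem shift_near {n : ℕ} {U : Set (V (n + 1))} (hU : U ∈ 𝓝 (top (n + 1))) :
    ∃ N, ∀ k, N ≤ k → ∀ x : V (n + 1), shift k x ∈ U := by
  obtain ⟨N, hN⟩ := pt_near_top hU
  refine ⟨N, fun k hk x => ?_⟩
  rcases cases_V x with rfl | ⟨m, y, rfl⟩
  · exact mem_of_mem_nhds hU
  · exact hN _ (by omega) y

theorem shift_surj {n : ℕ} (k : ℕ) (x : V (n + 1)) (h : ∀ m y, x = pt m y → k ≤ m) :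
    ∃ x', shift k x' = x := by
  rcases cases_V x with rfl | ⟨m, y, rfl⟩
  · exact ⟨top _, rfl⟩
  · have := h m y rfl
    refine ⟨pt (m - k) y, ?_⟩
    change pt (m - k + k) y = _
    rw [Nat.sub_add_cancel this]

/-- the product of two spaces `V p`, `V q` is a continuous image of `V (p + q)` -/
theorem exists_prod : ∀ (N p q : ℕ), p + q = N →
    ∃ P : V N → V p × V q, Continuous P ∧ Function.Surjective P := by
  intro N
  induction N with
  | zero =>
    intro p q h
    obtain rfl : p = 0 := by omega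
    obtain rfl : q = 0 := by omega
    exact ⟨fun _ => ((), ()), continuous_const, fun x => ⟨(), rfl⟩⟩
  | succ N ih =>
    intro p q h
    rcases p with _ | p
    · obtain rfl : q = N + 1 := by omega
      exact ⟨fun x => ((), x), by fun_prop, fun x => ⟨x.2, rfl⟩⟩
    rcases q with _ | q
    · obtain rfl : p = N := by omega
      exact ⟨fun x => (x, ()), by fun_prop, fun x => ⟨x.1, rfl⟩⟩
    obtain ⟨P1, h1, h1'⟩ := ih p (q + 1) (by omega)
    obtain ⟨P2, h2, h2'⟩ := ih (p + 1) q (by omega)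
    let φ : ℕ → V N → V (p + 1) × V (q + 1) := fun k w =>
      if k % 2 = 0 then (pt (k / 2) (P1 w).1, shift (k / 2) (P1 w).2)
      else (shift (k / 2 + 1) (P2 w).1, pt (k / 2) (P2 w).2)
    refine ⟨glue φ (top (p + 1), top (q + 1)), ?_, ?_⟩
    · apply glue_cont
      · intro k
        by_cases hk : k % 2 = 0
        · simp only [φ, hk, if_true]
          exact ((pt_cont _).comp (continuous_fst.comp h1)).prodMk
            ((shift_cont _).comp (continuous_snd.comp h1))
        · simp only [φ, hk, if_false]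
          exact ((shift_cont _).comp (continuous_fst.comp h2)).prodMk
            ((pt_cont _).comp (continuous_snd.comp h2))
      · intro U hU
        obtain ⟨U1, hU1, U2, hU2, hsub⟩ := mem_nhds_prod_iff.1 hU
        obtain ⟨N1, hN1⟩ := pt_near_top hU1
        obtain ⟨N2, hN2⟩ := pt_near_top hU2
        obtain ⟨N3, hN3⟩ := shift_near hU1
        obtain ⟨N4, hN4⟩ := shift_near hU2
        refine ⟨2 * (N1 + N2 + N3 + N4), fun k hk w => hsub ?_⟩
        by_cases hk' : k % 2 = 0
        · simp only [φ, hk', if_true]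
          exact ⟨hN1 _ (by omega) _, hN4 _ (by omega) _⟩
        · simp only [φ, hk', if_false]
          exact ⟨hN3 _ (by omega) _, hN2 _ (by omega) _⟩
    · rintro ⟨x, y⟩
      have key1 : ∀ n x', x = pt n x' → (∀ m y', y = pt m y' → n ≤ m) →
          ∃ a, glue φ (top (p + 1), top (q + 1)) a = (x, y) := by
        intro n x' hx hm
        obtain ⟨y', hy'⟩ := shift_surj n y hm
        obtain ⟨w, hw⟩ := h1' (x', y')
        refine ⟨pt (2 * n) w, ?_⟩
        rw [glue_pt]
        have e1 : 2 * n % 2 = 0 := by omega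
        have e2 : 2 * n / 2 = n := by omega
        simp only [φ, e1, if_true, e2, hw]
        rw [hx, hy']
      have key2 : ∀ n y', y = pt n y' → (∀ m x', x = pt m x' → n + 1 ≤ m) →
          ∃ a, glue φ (top (p + 1), top (q + 1)) a = (x, y) := by
        intro n y' hy hm
        obtain ⟨x', hx'⟩ := shift_surj (n + 1) x hm
        obtain ⟨w, hw⟩ := h2' (x', y')
        refine ⟨pt (2 * n + 1) w, ?_⟩
        rw [glue_pt]
        have e1 : ¬ (2 * n + 1) % 2 = 0 := by omega
        have e2 : (2 * n + 1) / 2 = n := by omega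
        simp only [φ, e1, if_false, e2, hw]
        rw [hy, hx']
      rcases cases_V x with hx | ⟨n, x', hx⟩
      · rcases cases_V y with hy | ⟨m, y', hy⟩
        · exact ⟨top _, by rw [glue_top, hx, hy]⟩
        · apply key2 m y' hy
          intro m' x' hx'
          rw [hx] at hx'
          exact absurd hx'.symm (OnePoint.coe_ne_infty (X := ℕ × V p) (m', x'))
      · rcases cases_V y with hy | ⟨m, y', hy⟩
        · apply key1 n x' hx
          intro m' y' hy'
          rw [hy] at hy'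
          exact absurd hy'.symm (OnePoint.coe_ne_infty (X := ℕ × V q) (m', y'))
        · by_cases hnm : n ≤ m
          · apply key1 n x' hx
            intro m' y'' hy'
            rw [hy] at hy'
            have : (m, y') = (m', y'') := OnePoint.coe_injective (X := ℕ × V q) hy'
            have e : m = m' := congrArg Prod.fst this
            omega
          · apply key2 m y' hy
            intro m' x'' hx'
            rw [hx] at hx'
            have : (n, x') = (m', x'') := OnePoint.coe_injective (X := ℕ × V p) hx'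
            have e : n = m' := congrArg Prod.fst this
            omega

/-! ### The functionals -/

/-- differences of evaluations, parametrised by a small space -/
theorem exists_family (d d' n b : ℕ) (h : d ≤ d') (hb : d' - d ≤ b) :
    ∃ E : V b → (C(V n, ℝ) →ₗ[ℝ] ℝ), (∀ f, Continuous fun x => E x f) ∧
      (∀ x f, |E x f| ≤ 2 * ‖f‖) ∧
      ∀ s, ∃ x, ∀ f, E x f = f (u d' n s) - f (u d n s) := by
  obtain rfl | h0 := Nat.eq_or_lt_of_le h
  · refine ⟨fun _ => 0, fun f => continuous_const, fun x f => ?_, fun s => ⟨top b, fun f => ?_⟩⟩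
    · rw [LinearMap.zero_apply, abs_zero]; positivity
    · rw [LinearMap.zero_apply, sub_self]
  obtain ⟨c, hc⟩ : ∃ c, d' = d + c + 1 := ⟨d' - d - 1, by omega⟩
  subst hc
  let ev : V n → (C(V n, ℝ) →ₗ[ℝ] ℝ) := fun s => (ContinuousMap.evalCLM ℝ s).toLinearMap
  let E0 : V (c + 1) → (C(V n, ℝ) →ₗ[ℝ] ℝ) :=
    glue (fun m y => ev (S c d n m y) - ev (u d n (S c d n m y))) 0
  have hE0 : ∀ f : C(V n, ℝ), (fun x => E0 x f) =
      glue (fun m y => f (S c d n m y) - f (u d n (S c d n m y))) 0 := by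
    intro f
    funext x
    rcases cases_V x with rfl | ⟨k, y, rfl⟩ <;> rfl
  have hcont : ∀ f : C(V n, ℝ), Continuous (fun x => E0 x f) := by
    intro f
    rw [hE0]
    apply glue_cont
    · intro m
      exact (f.continuous.comp (S_cont c d n m)).sub
        (f.continuous.comp ((u_cont d n).comp (S_cont c d n m)))
    · intro U hU
      obtain ⟨ε, hε, hsub⟩ := Metric.mem_nhds_iff.1 hU
      obtain ⟨N, hN⟩ := S_small c d n f f.continuous ε hε
      refine ⟨N, fun m hm y => hsub ?_⟩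
      rw [Metric.mem_ball, Real.dist_eq, sub_zero]
      exact hN m hm y
  have hbd : ∀ x (f : C(V n, ℝ)), |E0 x f| ≤ 2 * ‖f‖ := by
    intro x f
    rcases cases_V x with rfl | ⟨k, y, rfl⟩
    · change |(0 : ℝ)| ≤ _
      rw [abs_zero]; positivity
    · change |f (S c d n k y) - f (u d n (S c d n k y))| ≤ _
      have h1 := f.norm_coe_le_norm (S c d n k y)
      have h2 := f.norm_coe_le_norm (u d n (S c d n k y))
      rw [Real.norm_eq_abs] at h1 h2
      have h3 := abs_sub (f (S c d n k y)) (f (u d n (S c d n k y)))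
      linarith
  have hsurj : Function.Surjective (emb b (c + 1)) := emb_surj b (c + 1) (by omega)
  refine ⟨fun x => E0 (emb b (c + 1) x), fun f => (hcont f).comp (emb_cont _ _),
    fun x f => hbd _ f, fun s => ?_⟩
  rcases S_surj c d n s with h | ⟨m, y, h⟩
  · refine ⟨top b, fun f => ?_⟩
    change E0 (emb b (c + 1) (top b)) f = _
    rw [emb_top, h, sub_self]
    rfl
  · obtain ⟨x, hx⟩ := hsurj (pt m y)
    refine ⟨x, fun f => ?_⟩
    change E0 (emb b (c + 1) x) f = _
    rw [hx]
    change f (S c d n m y) - f (u d n (S c d n m y)) = _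
    rw [h, u_u d (d + c + 1) n (by omega)]

/-! ### The embedding -/

theorem exists_norm {K : Type*} [TopologicalSpace K] [CompactSpace K] (f : C(K, ℝ)) (x0 : K) :
    ∃ s, ‖f‖ = |f s| := by
  obtain ⟨t, -, ht⟩ := isCompact_univ.exists_isMaxOn
    (⟨x0, Set.mem_univ _⟩ : (Set.univ : Set K).Nonempty) f.continuous.abs.continuousOn
  refine ⟨t, le_antisymm ?_ (f.norm_coe_le_norm t)⟩
  rw [ContinuousMap.norm_le _ (abs_nonneg _)]
  intro x
  exact ht (Set.mem_univ x)

/-- The key property on `V (n + 1)`. -/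
theorem exists_embedding (n : ℕ) (hn : 2 ≤ n) : ∃ T : C(V (n + 1), ℝ) →ₗᵢ[ℝ] C(V (n + 1), ℝ),
    ∀ (h k : C(V (n + 1), ℝ)) (μ : ℝ), μ ≤ ‖h‖ → μ ≤ ‖k‖ →
      ∃ x, μ ≤ 128 * |T h x| ∧ μ ≤ 128 * |T k x| := by
  let b := (n + 4) / 4
  let d : ℕ → ℕ := fun i => min (i * b) (n + 1)
  have hd0 : d 0 = 0 := by simp [d]
  have hd4 : d 4 = n + 1 := by
    simp only [d, b]; omega
  have hdle : ∀ i, d i ≤ d (i + 1) := by
    intro i
    simp only [d]
    apply min_le_min _ le_rfl
    gcongr
    omega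
  have hdb : ∀ i, d (i + 1) - d i ≤ b := by
    intro i
    simp only [d]
    have : (i + 1) * b = i * b + b := by ring
    omega
  have hfam : ∀ i, ∃ E : V b → (C(V (n + 1), ℝ) →ₗ[ℝ] ℝ), (∀ f, Continuous fun x => E x f) ∧
      (∀ x f, |E x f| ≤ 2 * ‖f‖) ∧
      ∀ s, ∃ x, ∀ f, E x f = f (u (d (i + 1)) (n + 1) s) - f (u (d i) (n + 1) s) := fun i =>
    exists_family (d i) (d (i + 1)) (n + 1) b (hdle i) (hdb i)
  choose E hEc hEb hEs using hfam
  obtain ⟨P, hPc, hPs⟩ := exists_prod (b + b) b b rfl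
  let Q : V n → V b × V b := fun y => P (emb n (b + b) y)
  have hQc : Continuous Q := hPc.comp (emb_cont _ _)
  have hQs : Function.Surjective Q := hPs.comp (emb_surj n (b + b) (by simp only [b]; omega))
  let L : ℕ → V n → (C(V (n + 1), ℝ) →ₗ[ℝ] ℝ) := fun k y =>
    if k < 16 then (1 / 4 : ℝ) • (E (k / 4) (Q y).1 + E (k % 4) (Q y).2)
    else (ContinuousMap.evalCLM ℝ (pt (k - 16) y)).toLinearMap
  have hL1 : ∀ k y f, k < 16 → L k y f = 1 / 4 * (E (k / 4) (Q y).1 f + E (k % 4) (Q y).2 f) := by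
    intro k y f hk
    simp only [L, hk, if_true]
    rfl
  have hL2 : ∀ k y f, ¬ k < 16 → L k y f = f (pt (k - 16) y) := by
    intro k y f hk
    simp only [L, hk, if_false]
    rfl
  have hLc : ∀ f : C(V (n + 1), ℝ), Continuous (glue (fun k y => L k y f) (f (top (n + 1)))) := by
    intro f
    apply glue_cont
    · intro k
      by_cases hk : k < 16
      · have : (fun y => L k y f) =
            fun y => 1 / 4 * (E (k / 4) (Q y).1 f + E (k % 4) (Q y).2 f) := by
          funext y; exact hL1 k y f hk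
        rw [this]
        exact continuous_const.mul (((hEc _ f).comp (continuous_fst.comp hQc)).add
          ((hEc _ f).comp (continuous_snd.comp hQc)))
      · have : (fun y => L k y f) = fun y => f (pt (k - 16) y) := by
          funext y; exact hL2 k y f hk
        rw [this]
        exact f.continuous.comp (pt_cont _)
    · intro U hU
      obtain ⟨N, hN⟩ := eventually_pt f.continuous hU
      refine ⟨N + 16, fun k hk y => ?_⟩
      rw [hL2 k y f (by omega)]
      exact hN _ (by omega) y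
  let T0 : C(V (n + 1), ℝ) →ₗ[ℝ] C(V (n + 1), ℝ) :=
    { toFun := fun f => ⟨glue (fun k y => L k y f) (f (top (n + 1))), hLc f⟩
      map_add' := by
        intro f g
        ext x
        rcases cases_V x with rfl | ⟨k, y, rfl⟩
        · rfl
        · exact map_add (L k y) f g
      map_smul' := by
        intro c f
        ext x
        rcases cases_V x with rfl | ⟨k, y, rfl⟩
        · rfl
        · exact map_smul (L k y) c f }
  have hTtop : ∀ f, T0 f (top (n + 1)) = f (top (n + 1)) := fun f => rfl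
  have hTpt : ∀ f k y, T0 f (pt k y) = L k y f := fun f k y => rfl
  have hTev : ∀ f x, ∃ x', T0 f x' = f x := by
    intro f x
    rcases cases_V x with rfl | ⟨k, y, rfl⟩
    · exact ⟨top _, hTtop f⟩
    · refine ⟨pt (k + 16) y, ?_⟩
      rw [hTpt, hL2 _ y f (by omega), Nat.add_sub_cancel]
  have hTev' : ∀ x : V (n + 1), ∃ x', ∀ f, T0 f x' = f x := by
    intro x
    rcases cases_V x with rfl | ⟨k, y, rfl⟩
    · exact ⟨top _, hTtop⟩
    · refine ⟨pt (k + 16) y, fun f => ?_⟩
      rw [hTpt, hL2 _ y f (by omega), Nat.add_sub_cancel]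
  have hTn : ∀ f, ‖T0 f‖ = ‖f‖ := by
    intro f
    apply le_antisymm
    · rw [ContinuousMap.norm_le _ (norm_nonneg _)]
      intro x
      rcases cases_V x with rfl | ⟨k, y, rfl⟩
      · rw [hTtop]; exact f.norm_coe_le_norm _
      · rw [hTpt, Real.norm_eq_abs]
        by_cases hk : k < 16
        · rw [hL1 k y f hk, abs_mul, abs_of_pos (by norm_num : (0 : ℝ) < 1 / 4)]
          have h1 := hEb (k / 4) (Q y).1 f
          have h2 := hEb (k % 4) (Q y).2 f
          have h3 := abs_add_le (E (k / 4) (Q y).1 f) (E (k % 4) (Q y).2 f)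
          linarith
        · rw [hL2 k y f hk]; exact f.norm_coe_le_norm _
    · rw [ContinuousMap.norm_le _ (norm_nonneg _)]
      intro x
      obtain ⟨x', hx'⟩ := hTev' x
      rw [← hx' f]
      exact (T0 f).norm_coe_le_norm _
  refine ⟨⟨T0, hTn⟩, ?_⟩
  intro h k μ hμh hμk
  change ∃ x, μ ≤ 128 * |T0 h x| ∧ μ ≤ 128 * |T0 k x|
  by_cases hμ : μ ≤ 0
  · exact ⟨top _, hμ.trans (by positivity), hμ.trans (by positivity)⟩
  have hμ0 : 0 < μ := not_le.1 hμ
  -- a function all of whose differences are small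
  have telescope : ∀ f : C(V (n + 1), ℝ), (∀ i < 4, ∀ s, |f (u (d (i + 1)) (n + 1) s) -
      f (u (d i) (n + 1) s)| < μ / 16) → ∀ s, |f s - f (top (n + 1))| < μ / 4 := by
    intro f hf s
    have h0 := hf 0 (by norm_num) s
    have h1 := hf 1 (by norm_num) s
    have h2 := hf 2 (by norm_num) s
    have h3 := hf 3 (by norm_num) s
    rw [hd0] at h0
    rw [show 3 + 1 = 4 from rfl, hd4, u_self (n + 1) (n + 1) le_rfl] at h3
    change |f (u (d (0 + 1)) (n + 1) s) - f (top (n + 1))| < _ at h0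
    simp only [zero_add, Nat.reduceAdd] at h0 h1 h2
    rw [abs_lt] at *
    constructor <;> linarith
  have case1 : ∀ f g : C(V (n + 1), ℝ), μ ≤ ‖f‖ → μ ≤ ‖g‖ → (∀ i < 4, ∀ s,
      |f (u (d (i + 1)) (n + 1) s) - f (u (d i) (n + 1) s)| < μ / 16) →
      ∃ x, μ ≤ 128 * |T0 f x| ∧ μ ≤ 128 * |T0 g x| := by
    intro f g hf hg hs
    obtain ⟨s, hs1⟩ := exists_norm f (top _)
    obtain ⟨t, ht1⟩ := exists_norm g (top _)
    obtain ⟨x, hx⟩ := hTev' t
    refine ⟨x, ?_, ?_⟩
    · rw [hx]
      have e1 := telescope f hs s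
      have e2 := telescope f hs t
      rw [hs1] at hf
      have e3 : |f s| ≤ |f t| + (|f s - f (top (n + 1))| + |f t - f (top (n + 1))|) := by
        have : f s = f t + ((f s - f (top (n + 1))) - (f t - f (top (n + 1)))) := by ring
        calc |f s| = |f t + ((f s - f (top (n + 1))) - (f t - f (top (n + 1))))| := by rw [← this]
          _ ≤ |f t| + |(f s - f (top (n + 1))) - (f t - f (top (n + 1)))| := abs_add_le _ _
          _ ≤ |f t| + (|f s - f (top (n + 1))| + |f t - f (top (n + 1))|) := by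
            gcongr
            exact abs_sub _ _
      linarith
    · rw [hx]
      rw [ht1] at hg
      have := abs_nonneg (g t)
      linarith
  by_cases hh : ∀ i < 4, ∀ s, |h (u (d (i + 1)) (n + 1) s) - h (u (d i) (n + 1) s)| < μ / 16
  · exact case1 h k hμh hμk hh
  by_cases hk : ∀ i < 4, ∀ s, |k (u (d (i + 1)) (n + 1) s) - k (u (d i) (n + 1) s)| < μ / 16
  · obtain ⟨x, h1, h2⟩ := case1 k h hμk hμh hk
    exact ⟨x, h2, h1⟩
  push Not at hh hk
  obtain ⟨i, hi, s, hs⟩ := hh
  obtain ⟨j, hj, t, ht⟩ := hk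
  obtain ⟨xs, hxs⟩ := hEs i s
  obtain ⟨xt, hxt⟩ := hEs j t
  rw [← hxs] at hs
  rw [← hxt] at ht
  have pair : ∀ a b' : ℕ, a < 4 → b' < 4 → ∀ x y, ∃ z, ∀ f,
      T0 f z = 1 / 4 * (E a x f + E b' y f) := by
    intro a b' ha hb' x y
    obtain ⟨w, hw⟩ := hQs (x, y)
    refine ⟨pt (4 * a + b') w, fun f => ?_⟩
    have e1 : (4 * a + b') / 4 = a := by omega
    have e2 : (4 * a + b') % 4 = b' := by omega
    rw [hTpt, hL1 _ w f (by omega), hw, e1, e2]
  by_cases c1 : μ / 32 ≤ |E i xs k|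
  · obtain ⟨z, hz⟩ := pair i i hi hi xs xs
    refine ⟨z, ?_, ?_⟩
    · rw [hz, show 1 / 4 * (E i xs h + E i xs h) = 1 / 2 * E i xs h by ring, abs_mul,
        abs_of_pos (by norm_num : (0 : ℝ) < 1 / 2)]
      linarith
    · rw [hz, show 1 / 4 * (E i xs k + E i xs k) = 1 / 2 * E i xs k by ring, abs_mul,
        abs_of_pos (by norm_num : (0 : ℝ) < 1 / 2)]
      linarith
  by_cases c2 : μ / 32 ≤ |E j xt h|
  · obtain ⟨z, hz⟩ := pair j j hj hj xt xt
    refine ⟨z, ?_, ?_⟩
    · rw [hz, show 1 / 4 * (E j xt h + E j xt h) = 1 / 2 * E j xt h by ring, abs_mul,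
        abs_of_pos (by norm_num : (0 : ℝ) < 1 / 2)]
      linarith
    · rw [hz, show 1 / 4 * (E j xt k + E j xt k) = 1 / 2 * E j xt k by ring, abs_mul,
        abs_of_pos (by norm_num : (0 : ℝ) < 1 / 2)]
      linarith
  obtain ⟨z, hz⟩ := pair i j hi hj xs xt
  have lower : ∀ a b' : ℝ, μ / 16 ≤ |a| → |b'| < μ / 32 → μ / 32 ≤ |a + b'| := by
    intro a b' h1 h2
    have : |a| ≤ |a + b'| + |b'| := by
      calc |a| = |(a + b') - b'| := by rw [add_sub_cancel_right]
        _ ≤ |a + b'| + |b'| := abs_sub _ _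
    linarith
  refine ⟨z, ?_, ?_⟩
  · rw [hz, abs_mul, abs_of_pos (by norm_num : (0 : ℝ) < 1 / 4)]
    have := lower (E i xs h) (E j xt h) hs (not_le.1 c2)
    linarith
  · rw [hz, abs_mul, abs_of_pos (by norm_num : (0 : ℝ) < 1 / 4), add_comm]
    have := lower (E j xt k) (E i xs k) ht (not_le.1 c1)
    linarith

/-! ### The ordinal intervals -/

/-- The interval `[1, ω ^ α]` of ordinals with the order topology. -/
abbrev W (α : ℕ) : Type 1 := Set.Icc (1 : Ordinal.{0}) (Ordinal.omega0 ^ (α : Ordinal.{0}))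

theorem one_le_top (α : ℕ) : (1 : Ordinal.{0}) ≤ Ordinal.omega0 ^ (α : Ordinal.{0}) := by
  rw [Order.one_le_iff_pos]
  exact Ordinal.opow_pos _ Ordinal.omega0_pos

/-- last point -/
noncomputable def wtop (α : ℕ) : W α := ⟨Ordinal.omega0 ^ (α : Ordinal.{0}), one_le_top α, le_rfl⟩

theorem pow_succ' (α : ℕ) : Ordinal.omega0 ^ ((α + 1 : ℕ) : Ordinal.{0}) =
    Ordinal.omega0 ^ (α : Ordinal.{0}) * Ordinal.omega0 := by
  rw [Nat.cast_add, Nat.cast_one, ← Order.succ_eq_add_one, Ordinal.opow_succ]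

theorem wpt_mem (α k : ℕ) (y : W α) : Ordinal.omega0 ^ (α : Ordinal.{0}) * (k : Ordinal.{0}) + y.1 ∈
    Set.Icc (1 : Ordinal.{0}) (Ordinal.omega0 ^ ((α + 1 : ℕ) : Ordinal.{0})) := by
  refine ⟨y.2.1.trans le_add_self, ?_⟩
  rw [pow_succ']
  calc Ordinal.omega0 ^ (α : Ordinal.{0}) * (k : Ordinal.{0}) + y.1
      ≤ Ordinal.omega0 ^ (α : Ordinal.{0}) * (k : Ordinal.{0}) +
        Ordinal.omega0 ^ (α : Ordinal.{0}) := by gcongr; exact y.2.2
    _ = Ordinal.omega0 ^ (α : Ordinal.{0}) * ((k + 1 : ℕ) : Ordinal.{0}) := by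
        rw [Nat.cast_add, Nat.cast_one, mul_add_one]
    _ ≤ _ := by
        gcongr
        exact (Ordinal.natCast_lt_omega0 _).le

/-- the point `y` in the `k`-th copy -/
noncomputable def wpt (α k : ℕ) (y : W α) : W (α + 1) := ⟨_, wpt_mem α k y⟩

theorem wpt_cont (α k : ℕ) : Continuous (wpt α k) := by
  apply Continuous.subtype_mk
  exact ((Ordinal.isNormal_add_right _).continuous).comp continuous_subtype_val

theorem wpt_le (α k : ℕ) (y : W α) : (wpt α k y).1 ≤
    Ordinal.omega0 ^ (α : Ordinal.{0}) * ((k + 1 : ℕ) : Ordinal.{0}) := by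
  have h : Ordinal.omega0 ^ (α : Ordinal.{0}) * (k : Ordinal.{0}) + y.1 ≤
      Ordinal.omega0 ^ (α : Ordinal.{0}) * ((k + 1 : ℕ) : Ordinal.{0}) := by
    rw [Nat.cast_add k 1, Nat.cast_one, mul_add_one]
    gcongr
    exact y.2.2
  exact h

theorem wpt_lt (α k : ℕ) (y : W α) : (wpt α k y).1 <
    Ordinal.omega0 ^ ((α + 1 : ℕ) : Ordinal.{0}) := by
  have h1 := wpt_le α k y
  refine lt_of_le_of_lt h1 ?_
  rw [pow_succ']
  exact (mul_lt_mul_iff_right₀ (Ordinal.opow_pos _ Ordinal.omega0_pos)).2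
    (Ordinal.natCast_lt_omega0 _)

theorem wpt_lt_wpt {α k k' : ℕ} (h : k < k') (y y' : W α) : (wpt α k y).1 < (wpt α k' y').1 := by
  have h1 := wpt_le α k y
  have h2 : Ordinal.omega0 ^ (α : Ordinal.{0}) * ((k + 1 : ℕ) : Ordinal.{0}) ≤
      Ordinal.omega0 ^ (α : Ordinal.{0}) * (k' : Ordinal.{0}) := by
    gcongr
    exact h
  have h3 : Ordinal.omega0 ^ (α : Ordinal.{0}) * (k' : Ordinal.{0}) < (wpt α k' y').1 := by
    change _ < Ordinal.omega0 ^ (α : Ordinal.{0}) * (k' : Ordinal.{0}) + y'.1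
    exact lt_add_of_pos_right _ (lt_of_lt_of_le zero_lt_one y'.2.1)
  exact lt_of_le_of_lt (h1.trans h2) h3

/-- the comparison map -/
noncomputable def φ : (α : ℕ) → V α → W α
  | 0 => fun _ => wtop 0
  | α + 1 => glue (fun k y => wpt α k (φ α y)) (wtop (α + 1))

theorem φ_cont : ∀ α, Continuous (φ α)
  | 0 => continuous_const
  | α + 1 => by
    apply glue_cont
    · intro k
      exact (wpt_cont α k).comp (φ_cont α)
    · intro U hU
      obtain ⟨U', hU', hsub⟩ := mem_nhds_subtype _ _ _ |>.1 hU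
      have hpos : (0 : Ordinal.{0}) < (wtop (α + 1)).1 := Ordinal.opow_pos _ Ordinal.omega0_pos
      obtain ⟨a, ha, hsub'⟩ := exists_Ioc_subset_of_mem_nhds hU' ⟨0, hpos⟩
      have ha' : a < Ordinal.omega0 ^ (α : Ordinal.{0}) * Ordinal.omega0 := by
        rw [← pow_succ']; exact ha
      obtain ⟨c, hc, hac⟩ := (Ordinal.lt_mul_iff_of_isSuccLimit Ordinal.isSuccLimit_omega0).1 ha'
      obtain ⟨N, rfl⟩ := Ordinal.lt_omega0.1 hc
      refine ⟨N, fun k hk y => hsub ?_⟩
      apply hsub'
      refine ⟨?_, (wpt α k (φ α y)).2.2⟩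
      have h2 : Ordinal.omega0 ^ (α : Ordinal.{0}) * (N : Ordinal.{0}) ≤
          Ordinal.omega0 ^ (α : Ordinal.{0}) * (k : Ordinal.{0}) := by
        gcongr
      exact lt_of_lt_of_le hac (h2.trans le_self_add)

theorem φ_inj : ∀ α, Function.Injective (φ α)
  | 0 => fun _ _ _ => rfl
  | α + 1 => by
    intro x x' h
    rcases cases_V x with rfl | ⟨k, y, rfl⟩
    · rcases cases_V x' with rfl | ⟨k', y', rfl⟩
      · rfl
      · have h1 : (wtop (α + 1)).1 = (wpt α k' (φ α y')).1 := congrArg Subtype.val h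
        exact absurd h1 (wpt_lt α k' (φ α y')).ne'
    · rcases cases_V x' with rfl | ⟨k', y', rfl⟩
      · have h1 : (wpt α k (φ α y)).1 = (wtop (α + 1)).1 := congrArg Subtype.val h
        exact absurd h1 (wpt_lt α k (φ α y)).ne
      · have h1 : (wpt α k (φ α y)).1 = (wpt α k' (φ α y')).1 := congrArg Subtype.val h
        have hk : k = k' := by
          by_contra hne
          rcases lt_or_gt_of_ne hne with h2 | h2
          · exact absurd h1 (wpt_lt_wpt h2 _ _).ne
          · exact absurd h1 (wpt_lt_wpt h2 _ _).ne'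
        subst hk
        have h2 : (φ α y).1 = (φ α y').1 := by
          change Ordinal.omega0 ^ (α : Ordinal.{0}) * (k : Ordinal.{0}) + (φ α y).1 =
            Ordinal.omega0 ^ (α : Ordinal.{0}) * (k : Ordinal.{0}) + (φ α y').1 at h1
          exact add_left_cancel h1
        rw [φ_inj α (Subtype.ext h2)]

theorem φ_surj : ∀ α, Function.Surjective (φ α)
  | 0 => by
    intro x
    have h0 : Ordinal.omega0 ^ ((0 : ℕ) : Ordinal.{0}) = 1 := by
      rw [Nat.cast_zero, Ordinal.opow_zero]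
    have h1 : Ordinal.omega0 ^ ((0 : ℕ) : Ordinal.{0}) ≤ x.1 := h0.le.trans x.2.1
    exact ⟨(), Subtype.ext (le_antisymm h1 x.2.2)⟩
  | α + 1 => by
    intro x
    by_cases hx : x = wtop (α + 1)
    · exact ⟨top _, hx.symm⟩
    have hlt : x.1 < Ordinal.omega0 ^ (α : Ordinal.{0}) * Ordinal.omega0 := by
      rw [← pow_succ']
      exact lt_of_le_of_ne x.2.2 (fun h => hx (Subtype.ext h))
    have hpos : Ordinal.omega0 ^ (α : Ordinal.{0}) ≠ 0 :=
      (Ordinal.opow_pos _ Ordinal.omega0_pos).ne'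
    have hdiv : x.1 / Ordinal.omega0 ^ (α : Ordinal.{0}) < Ordinal.omega0 :=
      (Ordinal.lt_mul_iff_div_lt hpos).1 hlt
    obtain ⟨k, hk⟩ := Ordinal.lt_omega0.1 hdiv
    have hx1 := Ordinal.div_add_mod x.1 (Ordinal.omega0 ^ (α : Ordinal.{0}))
    rw [hk] at hx1
    have hmod := Ordinal.mod_lt x.1 hpos
    by_cases hr : x.1 % Ordinal.omega0 ^ (α : Ordinal.{0}) = 0
    · rw [hr, add_zero] at hx1
      rcases k with _ | k
      · rw [Nat.cast_zero, mul_zero] at hx1
        have := x.2.1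
        rw [← hx1] at this
        exact absurd this (by simp)
      · obtain ⟨y, hy⟩ := φ_surj α (wtop α)
        refine ⟨pt k y, Subtype.ext ?_⟩
        change Ordinal.omega0 ^ (α : Ordinal.{0}) * (k : Ordinal.{0}) + (φ α y).1 = x.1
        rw [hy, ← hx1, Nat.cast_add, Nat.cast_one, mul_add_one]
        rfl
    · obtain ⟨y, hy⟩ := φ_surj α ⟨x.1 % Ordinal.omega0 ^ (α : Ordinal.{0}),
        Order.one_le_iff_pos.2 (pos_iff_ne_zero.2 hr), hmod.le⟩
      refine ⟨pt k y, Subtype.ext ?_⟩
      change Ordinal.omega0 ^ (α : Ordinal.{0}) * (k : Ordinal.{0}) + (φ α y).1 = x.1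
      rw [hy]
      exact hx1

/-- `V α` is homeomorphic to `[1, ω ^ α]` -/
noncomputable def homeo (α : ℕ) : V α ≃ₜ W α :=
  (φ_cont α).homeoOfEquivCompactToT2 (f := Equiv.ofBijective (φ α) ⟨φ_inj α, φ_surj α⟩)

/-! ### Conclusion -/

/-- `E` does `C`-stable phase retrieval in `C(K)`. -/
def DoesSPR {K : Type*} [TopologicalSpace K] [CompactSpace K] (C : ℝ)
    (E : Submodule ℝ C(K, ℝ)) : Prop :=
  ∀ f ∈ E, ∀ g ∈ E, min ‖f - g‖ ‖f + g‖ ≤ C * ‖|f| - |g|‖

theorem real_min (a b : ℝ) : min |a - b| |a + b| ≤ |(|a| - |b|)| := by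
  rcases le_total 0 a with h1 | h1 <;> rcases le_total 0 b with h2 | h2
  · rw [abs_of_nonneg h1, abs_of_nonneg h2]; exact min_le_left _ _
  · rw [abs_of_nonneg h1, abs_of_nonpos h2, sub_neg_eq_add]; exact min_le_right _ _
  · rw [abs_of_nonpos h1, abs_of_nonneg h2]
    have : -a - b = -(a + b) := by ring
    rw [this, abs_neg]; exact min_le_right _ _
  · rw [abs_of_nonpos h1, abs_of_nonpos h2]
    have : -a - -b = -(a - b) := by ring
    rw [this, abs_neg]; exact min_le_left _ _

theorem spr_of_key {K : Type*} [TopologicalSpace K] [CompactSpace K] (T : C(K, ℝ) →ₗᵢ[ℝ] C(K, ℝ))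
    (hT : ∀ (h k : C(K, ℝ)) (μ : ℝ), μ ≤ ‖h‖ → μ ≤ ‖k‖ →
      ∃ x, μ ≤ 128 * |T h x| ∧ μ ≤ 128 * |T k x|) :
    DoesSPR 128 (LinearMap.range T.toLinearMap) := by
  rintro _ ⟨f, rfl⟩ _ ⟨g, rfl⟩
  change min ‖T f - T g‖ ‖T f + T g‖ ≤ 128 * ‖|T f| - |T g|‖
  obtain ⟨x, h1, h2⟩ := hT (f - g) (f + g) (min ‖T f - T g‖ ‖T f + T g‖)
    (by rw [← map_sub, T.norm_map]; exact min_le_left _ _)
    (by rw [← map_add T f g, T.norm_map]; exact min_le_right _ _)
  have h3 := (|T f| - |T g|).norm_coe_le_norm x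
  have h4 := real_min (T f x) (T g x)
  have h5 : ‖(|T f| - |T g|) x‖ = |(|T f x| - |T g x|)| := rfl
  rw [h5] at h3
  rw [map_sub, ContinuousMap.sub_apply] at h1
  rw [map_add, ContinuousMap.add_apply] at h2
  have h6 : min ‖T f - T g‖ ‖T f + T g‖ / 128 ≤ min |T f x - T g x| |T f x + T g x| := by
    apply le_min <;> linarith
  linarith

/-- **Positive answer to Q1.** For every finite `α ≥ 3` there is a `128`-SPR isometric embedding of
`C[1, ω ^ α]` into itself. -/
theorem result : ∀ α : ℕ, 3 ≤ α → ∃ T : C(W α, ℝ) →ₗᵢ[ℝ] C(W α, ℝ),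
    DoesSPR 128 (LinearMap.range T.toLinearMap) := by
  intro α hα
  obtain ⟨n, rfl⟩ : ∃ n, α = n + 1 := ⟨α - 1, by omega⟩
  obtain ⟨T, hT⟩ := exists_embedding n (by omega)
  let e := homeo (n + 1)
  have hn1 : ∀ f : C(W (n + 1), ℝ), ‖f.comp (e : C(V (n + 1), W (n + 1)))‖ = ‖f‖ := by
    intro f
    apply le_antisymm
    · rw [ContinuousMap.norm_le _ (norm_nonneg _)]
      intro x; exact f.norm_coe_le_norm _
    · rw [ContinuousMap.norm_le _ (norm_nonneg _)]
      intro x
      have := (f.comp (e : C(V (n + 1), W (n + 1)))).norm_coe_le_norm (e.symm x)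
      simpa using this
  have hn2 : ∀ f : C(V (n + 1), ℝ), ‖f.comp (e.symm : C(W (n + 1), V (n + 1)))‖ = ‖f‖ := by
    intro f
    apply le_antisymm
    · rw [ContinuousMap.norm_le _ (norm_nonneg _)]
      intro x; exact f.norm_coe_le_norm _
    · rw [ContinuousMap.norm_le _ (norm_nonneg _)]
      intro x
      have := (f.comp (e.symm : C(W (n + 1), V (n + 1)))).norm_coe_le_norm (e x)
      simpa using this
  let T' : C(W (n + 1), ℝ) →ₗᵢ[ℝ] C(W (n + 1), ℝ) :=
    { toFun := fun f => (T (f.comp (e : C(V (n + 1), W (n + 1))))).comp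
        (e.symm : C(W (n + 1), V (n + 1)))
      map_add' := by
        intro f g
        ext x
        have : (f + g).comp (e : C(V (n + 1), W (n + 1))) =
          f.comp (e : C(V (n + 1), W (n + 1))) + g.comp (e : C(V (n + 1), W (n + 1))) := rfl
        rw [this, map_add]
        rfl
      map_smul' := by
        intro c f
        ext x
        have : (c • f).comp (e : C(V (n + 1), W (n + 1))) =
          c • f.comp (e : C(V (n + 1), W (n + 1))) := rfl
        rw [this, map_smul]
        rfl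
      norm_map' := by
        intro f
        change ‖(T (f.comp (e : C(V (n + 1), W (n + 1))))).comp
          (e.symm : C(W (n + 1), V (n + 1)))‖ = ‖f‖
        rw [hn2, T.norm_map, hn1] }
  refine ⟨T', spr_of_key T' ?_⟩
  intro h k μ h1 h2
  obtain ⟨x, hx1, hx2⟩ := hT (h.comp (e : C(V (n + 1), W (n + 1))))
    (k.comp (e : C(V (n + 1), W (n + 1)))) μ (by rwa [hn1]) (by rwa [hn1])
  refine ⟨e x, ?_, ?_⟩
  · change μ ≤ 128 * |T (h.comp (e : C(V (n + 1), W (n + 1)))) (e.symm (e x))|
    rw [e.symm_apply_apply]; exact hx1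
  · change μ ≤ 128 * |T (k.comp (e : C(V (n + 1), W (n + 1)))) (e.symm (e x))|
    rw [e.symm_apply_apply]; exact hx2

end Pool.Agent.Results.MP_6ed805_an.UniformSPR
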